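import Pool.Agent.H41.ET.Defs

/-!
# ET-WALK: from a transitive pair of involutions to a closed walk
-/

set_option autoImplicit false

namespace Pool.Agent.H670.ET

open Pool.Agent.H41.ET

section

variable {H : Type} {α τ : H → H}

theorem no_refl (hα : Inv0 α) (hτ : Inv0 τ) : ∀ (k : ℕ) (x : H),
    (fun y => τ (α y))^[k] x ≠ α x := by
  intro k
  induction k using Nat.twoStepInduction with
  | zero =>
    intro x h
    exact hα.2 x h.symm
  | one =>
    intro x h
    exact hτ.2 (α x) h
  | more k ih _ =>
    intro x h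
    apply ih (τ (α x))
    rw [Function.iterate_succ_apply'] at h
    have h1 : (fun y => τ (α y))^[k + 1] x = α (τ (α x)) := by
      have h2 := congrArg (fun y => α (τ y)) h
      simp only [hτ.1, hα.1] at h2
      exact h2
    rw [Function.iterate_succ_apply] at h1
    exact h1

theorem no_refl' (hα : Inv0 α) (hτ : Inv0 τ) (x : H) (a b : ℕ) :
    (fun y => τ (α y))^[a] x ≠ α ((fun y => τ (α y))^[b] x) := by
  intro h
  rcases le_total b a with hab | hab
  · obtain ⟨c, rfl⟩ := Nat.exists_eq_add_of_le hab
    rw [add_comm b c, Function.iterate_add_apply] at h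
    exact no_refl hα hτ c _ h
  · obtain ⟨c, rfl⟩ := Nat.exists_eq_add_of_le hab
    have h1 := congrArg α h
    rw [hα.1, add_comm a c, Function.iterate_add_apply] at h1
    exact no_refl hα hτ c _ h1.symm

end

theorem walk : S_WALK := by
  intro H _ _ _ α τ hα hτ hC
  obtain ⟨h0⟩ := (inferInstance : Nonempty H)
  set σ : H → H := fun y => τ (α y) with hσ
  have hinj : Function.Injective σ := by
    intro x y h
    have h1 := congrArg (fun z => α (τ z)) h
    simpa only [hσ, hτ.1, hα.1] using h1
  have hper : h0 ∈ Function.periodicPts σ := by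
    exact hinj.mem_periodicPts h0
  set n : ℕ := Function.minimalPeriod σ h0 with hn
  have hn0 : 0 < n := Function.minimalPeriod_pos_of_mem_periodicPts hper
  have hne : NeZero n := ⟨hn0.ne'⟩
  have hmod : ∀ k : ℕ, σ^[k % n] h0 = σ^[k] h0 := fun k =>
    Function.iterate_mod_minimalPeriod_eq
  set w : ZMod n → H := fun i => σ^[i.val] h0 with hw
  have hwk : ∀ k : ℕ, w (k : ZMod n) = σ^[k] h0 := by
    intro k
    change σ^[(k : ZMod n).val] h0 = _
    rw [ZMod.val_natCast, hmod]
  have hstep : ∀ i : ZMod n, w (i + 1) = σ (w i) := by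
    intro i
    have e : i + 1 = ((i.val + 1 : ℕ) : ZMod n) := by
      push_cast
      rw [ZMod.natCast_zmod_val]
    rw [e, hwk, Function.iterate_succ_apply']
  have hwinj : Function.Injective w := by
    intro i j h
    have h1 : i.val = j.val :=
      Function.iterate_injOn_Iio_minimalPeriod (f := σ) (x := h0) (ZMod.val_lt i) (ZMod.val_lt j) h
    exact ZMod.val_injective n h1
  have hwα : ∀ i j : ZMod n, w i ≠ α (w j) := fun i j => no_refl' hα hτ h0 i.val j.val
  -- the closed set
  have hA : (Set.range w ∪ Set.range fun i => α (w i)) = Set.univ := by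
    apply hC
    · exact ⟨w 0, Or.inl ⟨0, rfl⟩⟩
    · constructor
      · rintro x (⟨i, rfl⟩ | ⟨i, rfl⟩)
        · exact Or.inr ⟨i, rfl⟩
        · exact Or.inl ⟨i, (hα.1 _).symm⟩
      · rintro x (⟨i, rfl⟩ | ⟨i, rfl⟩)
        · refine Or.inr ⟨i - 1, ?_⟩
          have h1 := hstep (i - 1)
          rw [sub_add_cancel] at h1
          change α (w (i - 1)) = τ (w i)
          rw [h1]
          exact (hτ.1 _).symm
        · exact Or.inl ⟨i + 1, hstep i⟩
  have hcov : ∀ h : H, ∃ i, w i = h ∨ w i = α h := by
    intro h
    have h1 : h ∈ (Set.range w ∪ Set.range fun i => α (w i)) := by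
      rw [hA]
      trivial
    rcases h1 with ⟨i, hi⟩ | ⟨i, hi⟩
    · exact ⟨i, Or.inl hi⟩
    · refine ⟨i, Or.inr ?_⟩
      rw [← hi]
      exact (hα.1 _).symm
  refine ⟨n, w, hn0.ne', ?_, hstep, ?_⟩
  · have hb : Function.Bijective (Sum.elim w (fun i => α (w i))) := by
      constructor
      · rintro (i | i) (j | j) h
        · exact congrArg _ (hwinj h)
        · exact absurd h (hwα i j)
        · exact absurd h.symm (hwα j i)
        · have h1 : α (w i) = α (w j) := h
          have h2 := congrArg α h1
          rw [hα.1, hα.1] at h2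
          exact congrArg _ (hwinj h2)
      · intro h
        obtain ⟨i, hi | hi⟩ := hcov h
        · exact ⟨Sum.inl i, hi⟩
        · refine ⟨Sum.inr i, ?_⟩
          change α (w i) = h
          rw [hi, hα.1]
    have h1 := Fintype.card_of_bijective hb
    rw [Fintype.card_sum, ZMod.card] at h1
    omega
  · intro h
    obtain ⟨i, hi⟩ := hcov h
    refine ⟨i, hi, fun j hj => ?_⟩
    rcases hi with hi | hi <;> rcases hj with hj | hj
    · exact hwinj (hj.trans hi.symm)
    · refine absurd ?_ (hwα j i)
      rw [hj, hi]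
    · refine absurd ?_ (hwα i j)
      rw [hj, hi]
    · exact hwinj (hj.trans hi.symm)

end Pool.Agent.H670.ET
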